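import Pool.Agent.J4.H82.Graph.Shear

/-!
# Upper bounds for the Hausdorff measure of pieces of graphs
-/

set_option autoImplicit false

open Set MeasureTheory Filter Topology
open scoped ENNReal NNReal

namespace Pool.Agent.J4.H82.Graph

variable {ι : Type} [Fintype ι] [DecidableEq ι] (I : Fin 4 → ι)

/-- The point `(x,y)` of Euclidean space. -/
noncomputable def J (x y : ι → ℝ) : EuclideanSpace ℝ (ι ⊕ ι) := WithLp.toLp 2 (Sum.elim x y)

/-- Lipschitz constant of `J`. -/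
noncomputable def KJ (ι : Type) [Fintype ι] : ℝ≥0 :=
  (Fintype.card (ι ⊕ ι) : ℝ≥0) ^ (1 / 2 : ℝ≥0∞).toReal

omit [DecidableEq ι] in
lemma dist_J (x y x' y' : ι → ℝ) :
    dist (J x y) (J x' y') ≤ KJ ι * max (dist x x') (dist y y') := by
  have h := (PiLp.lipschitzWith_toLp 2 (fun _ : ι ⊕ ι => ℝ)).dist_le_mul (Sum.elim x y)
    (Sum.elim x' y')
  refine h.trans ?_
  refine mul_le_mul_of_nonneg_left ?_ (NNReal.coe_nonneg _)
  rw [dist_pi_le_iff (le_max_of_le_left dist_nonneg)]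
  rintro (i | i)
  · exact (dist_le_pi_dist x x' i).trans (le_max_left _ _)
  · exact (dist_le_pi_dist y y' i).trans (le_max_right _ _)

omit [DecidableEq ι] in
lemma J_cont : Continuous fun z : (ι → ℝ) × (ι → ℝ) => J z.1 z.2 := by
  unfold J
  apply (PiLp.continuous_toLp 2 _).comp
  apply continuous_pi
  rintro (i | i)
  · exact (continuous_apply i).comp continuous_fst
  · exact (continuous_apply i).comp continuous_snd

/-- Parametrised piece. -/
noncomputable def PP (V T : (ι → ℝ) → ℝ × ℝ) (x : ι → ℝ) : EuclideanSpace ℝ (ι ⊕ ι) :=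
  J (rp I (V x) x) (rp I (V x) (sh I (T x) x))

omit [DecidableEq ι] in
lemma dist_uu (x x' : ι → ℝ) : dist (uu I x) (uu I x') ≤ dist x x' :=
  max_le (dist_le_pi_dist x x' _) (dist_le_pi_dist x x' _)

omit [DecidableEq ι] in
lemma dist_vv (x x' : ι → ℝ) : dist (vv I x) (vv I x') ≤ dist x x' :=
  max_le (dist_le_pi_dist x x' _) (dist_le_pi_dist x x' _)

lemma dist_shv {p p' u u' : ℝ × ℝ} (hp : ‖p‖ ≤ 1) :
    dist (shv p u) (shv p' u') ≤ 5 * dist u u' + dist p p' := by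
  have h1 : shv p u - shv p' u' = (u - u') + ((chi u - chi u') • p + chi u' • (p - p')) := by
    unfold shv
    rw [sub_smul, smul_sub]; abel
  rw [dist_eq_norm, h1, dist_eq_norm, dist_eq_norm]
  refine (norm_add_le _ _).trans ?_
  have h2 := norm_add_le ((chi u - chi u') • p) (chi u' • (p - p'))
  have h3 : ‖(chi u - chi u') • p‖ ≤ 4 * ‖u - u'‖ * 1 := by
    rw [norm_smul, Real.norm_eq_abs]
    exact mul_le_mul (chi_lip u u') hp (norm_nonneg _) (by positivity)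
  have h4 : ‖chi u' • (p - p')‖ ≤ 1 * ‖p - p'‖ := by
    rw [norm_smul_pos (chi_nonneg u')]
    exact mul_le_mul_of_nonneg_right (chi_le_one u') (norm_nonneg _)
  linarith

lemma dist_sh {p p' : ℝ × ℝ} (hp : ‖p‖ ≤ 1) (x x' : ι → ℝ) :
    dist (sh I p x) (sh I p' x') ≤ 5 * dist x x' + dist p p' := by
  have h := (dist_shv (u := uu I x) (u' := uu I x') (p' := p') hp).trans
    (add_le_add_left (mul_le_mul_of_nonneg_left (dist_uu I x x') (by norm_num)) (dist p p'))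
  rw [dist_pi_le_iff (by positivity)]
  intro i
  unfold sh
  split_ifs
  · exact (le_max_left _ _).trans h
  · exact (le_max_right _ _).trans h
  · have := dist_le_pi_dist x x' i
    have h3 : (0 : ℝ) ≤ dist p p' := dist_nonneg
    have h4 : (0 : ℝ) ≤ dist x x' := dist_nonneg
    linarith

lemma dist_rp (w w' : ℝ × ℝ) (x x' : ι → ℝ) :
    dist (rp I w x) (rp I w' x') ≤ max (dist w w') (dist x x') := by
  rw [dist_pi_le_iff (le_max_of_le_left dist_nonneg)]
  intro i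
  unfold rp
  split_ifs
  · exact (le_max_left _ _).trans (le_max_left _ _)
  · exact (le_max_right _ _).trans (le_max_left _ _)
  · exact (dist_le_pi_dist x x' i).trans (le_max_right _ _)

lemma PP_lip {V T : (ι → ℝ) → ℝ × ℝ} {R : Set (ι → ℝ)}
    (hV : ∀ x ∈ R, ∀ x' ∈ R, dist (V x) (V x') ≤ dist x x')
    (hT : ∀ x ∈ R, ∀ x' ∈ R, dist (T x) (T x') ≤ dist x x')
    (hT1 : ∀ x ∈ R, ‖T x‖ ≤ 1) : LipschitzOnWith (KJ ι * 6) (PP I V T) R := by
  apply LipschitzOnWith.of_dist_le_mul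
  intro x hx x' hx'
  unfold PP
  refine (dist_J _ _ _ _).trans ?_
  push_cast
  rw [mul_assoc]
  refine mul_le_mul_of_nonneg_left ?_ (NNReal.coe_nonneg _)
  have h0 : (0 : ℝ) ≤ dist x x' := dist_nonneg
  have h1 := hV x hx x' hx'
  have h2 := hT x hx x' hx'
  have h3 := dist_sh I (p' := T x') (hT1 x hx) x x'
  apply max_le
  · refine (dist_rp I _ _ _ _).trans (max_le ?_ ?_) <;> linarith
  · refine (dist_rp I _ _ _ _).trans (max_le ?_ ?_) <;> linarith

/-- The constant. -/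
noncomputable def Kd (ι : Type) [Fintype ι] : ℝ≥0∞ := ((KJ ι * 6 : ℝ≥0) : ℝ≥0∞) ^ (Fintype.card ι : ℝ)

lemma Kd_ne_top : Kd ι ≠ ∞ := by
  unfold Kd
  exact ENNReal.rpow_ne_top_of_nonneg (by positivity) ENNReal.coe_ne_top

lemma PP_measure {V T : (ι → ℝ) → ℝ × ℝ} {R : Set (ι → ℝ)}
    (hV : ∀ x ∈ R, ∀ x' ∈ R, dist (V x) (V x') ≤ dist x x')
    (hT : ∀ x ∈ R, ∀ x' ∈ R, dist (T x) (T x') ≤ dist x x')
    (hT1 : ∀ x ∈ R, ‖T x‖ ≤ 1) :
    μH[(Fintype.card ι : ℝ)] (PP I V T '' R) ≤ Kd ι * volume R := by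
  have h := (PP_lip I hV hT hT1).hausdorffMeasure_image_le (d := (Fintype.card ι : ℝ)) (by positivity)
  rw [hausdorffMeasure_pi_real] at h
  exact h

/-- The box with sides `[α.1, β.1]`, `[α.2, β.2]` in the last two distinguished directions. -/
def box (α β : ℝ × ℝ) : Set (ι → ℝ) :=
  Icc (fun i => if i = I 2 then α.1 else if i = I 3 then α.2 else 0)
    (fun i => if i = I 2 then β.1 else if i = I 3 then β.2 else 1)

lemma box_volume (hI : Function.Injective I) (α β : ℝ × ℝ) :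
    volume (box I α β) = ENNReal.ofReal (β.1 - α.1) * ENNReal.ofReal (β.2 - α.2) := by
  have h32 := ne_of_inj hI (show (3 : Fin 4) ≠ 2 by decide)
  unfold box
  rw [Real.volume_Icc_pi]
  rw [Finset.prod_eq_mul (I 2) (I 3) h32.symm]
  · simp [h32]
  · intro i _ hi
    simp [hi.1, hi.2]
  · intro h; exact absurd (Finset.mem_univ _) h
  · intro h; exact absurd (Finset.mem_univ _) h

lemma mem_box (hI : Function.Injective I) {α β : ℝ × ℝ} {x : ι → ℝ} (hx : x ∈ cube ι)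
    {w : ℝ × ℝ} (h1 : α.1 ≤ w.1 ∧ w.1 ≤ β.1) (h2 : α.2 ≤ w.2 ∧ w.2 ≤ β.2) :
    rp I w x ∈ box I α β := by
  constructor <;> intro i <;> simp only [rp] <;> split_ifs
  · exact h1.1
  · exact h2.1
  · exact (hx i).1
  · exact h1.2
  · exact h2.2
  · exact (hx i).2

/-- The piece of the graph over the square `‖v - b‖ ≤ μ`. -/
def piece (Θ : ℝ × ℝ → ℝ × ℝ) (b : ℝ × ℝ) (μ : ℝ) : Set (EuclideanSpace ℝ (ι ⊕ ι)) :=
  (fun x => J x (sh I (Θ (vv I x)) x)) '' {x | x ∈ cube ι ∧ ‖vv I x - b‖ ≤ μ}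

lemma flat_measure (hI : Function.Injective I) {p b : ℝ × ℝ} {μ : ℝ} (hp : ‖p‖ ≤ 1) (h0 : 0 ≤ μ)
    (h1 : μ ≤ 1) {Θ : ℝ × ℝ → ℝ × ℝ} {S : Set (EuclideanSpace ℝ (ι ⊕ ι))}
    (hS : ∀ z ∈ S, ∃ x ∈ cube ι, ‖vv I x - b‖ ≤ μ ∧ z = J x (sh I p x)) :
    μH[(Fintype.card ι : ℝ)] S ≤ Kd ι * ENNReal.ofReal (4 * μ) := by
  have hsub : S ⊆ PP I (vv I) (fun _ => p) '' box I (b - (μ, μ)) (b + (μ, μ)) := by
    intro z hz
    obtain ⟨x, hx, hx2, rfl⟩ := hS z hz
    refine ⟨x, ?_, ?_⟩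
    · have h2 := mem_box I hI (α := b - (μ, μ)) (β := b + (μ, μ)) hx (w := vv I x) ?_ ?_
      · rwa [rp_vv] at h2
      · have := (norm_fst_le _).trans hx2
        rw [Real.norm_eq_abs, abs_le] at this
        simp only [Prod.fst_sub, Prod.fst_add] at this ⊢
        constructor <;> linarith
      · have := (norm_snd_le _).trans hx2
        rw [Real.norm_eq_abs, abs_le] at this
        simp only [Prod.snd_sub, Prod.snd_add] at this ⊢
        constructor <;> linarith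
    · unfold PP
      rw [rp_vv]
      congr 1
      rw [← sh_rp hI, rp_vv]
  refine (measure_mono hsub).trans ((PP_measure I ?_ ?_ ?_).trans ?_)
  · intro x _ x' _; exact dist_vv I x x'
  · intro x _ x' _; simp
  · intro x _; exact hp
  · refine mul_le_mul_right ?_ _
    rw [box_volume I hI]
    simp only [Prod.fst_sub, Prod.fst_add, Prod.snd_sub, Prod.snd_add]
    rw [← ENNReal.ofReal_mul (by linarith)]
    apply ENNReal.ofReal_le_ofReal
    nlinarith

lemma abs_cases {a b μ : ℝ} (h : max |a| |b| = μ) :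
    (a = μ ∨ a = -μ) ∨ (b = μ ∨ b = -μ) := by
  rcases max_choice |a| |b| with h' | h'
  · left
    rw [h'] at h
    rcases abs_choice a with h2 | h2 <;> rw [h2] at h
    · left; exact h
    · right; linarith
  · right
    rw [h'] at h
    rcases abs_choice b with h2 | h2 <;> rw [h2] at h
    · left; exact h
    · right; linarith

lemma cone_measure (hI : Function.Injective I) {p q b : ℝ × ℝ} {μ : ℝ} (hpq : ‖p‖ + ‖q‖ ≤ 1)
    (h0 : 0 < μ) (h1 : μ ≤ 1) {S : Set (EuclideanSpace ℝ (ι ⊕ ι))}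
    (hS : ∀ z ∈ S, ∃ x ∈ cube ι, ‖vv I x - b‖ ≤ μ ∧
      z = J x (sh I (p + bump ((1 / μ) • (vv I x - b)) • q) x)) :
    μH[(Fintype.card ι : ℝ)] S ≤ Kd ι * ENNReal.ofReal (12 * μ) := by
  have hq : ‖q‖ ≤ 1 := by linarith [norm_nonneg p]
  -- the four side pieces
  set T : (ι → ℝ) → ℝ × ℝ := fun x => p + x (I 2) • q with hT
  set V1 : ℝ → (ι → ℝ) → ℝ × ℝ := fun σ x => (b.1 + σ * (μ * (1 - x (I 2) / 2)), b.2 + x (I 3))
    with hV1
  set V2 : ℝ → (ι → ℝ) → ℝ × ℝ := fun σ x => (b.1 + x (I 3), b.2 + σ * (μ * (1 - x (I 2) / 2)))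
    with hV2
  set R : Set (ι → ℝ) := box I (0, -μ) (1, μ) with hR
  have hvol : volume R = ENNReal.ofReal (2 * μ) := by
    rw [hR, box_volume I hI]
    simp only [sub_zero, ENNReal.ofReal_one, one_mul]
    congr 1; ring
  have hRx : ∀ x ∈ R, 0 ≤ x (I 2) ∧ x (I 2) ≤ 1 := by
    intro x hx
    have ha := hx.1 (I 2)
    have hb := hx.2 (I 2)
    simp only [if_true] at ha hb
    exact ⟨ha, hb⟩
  have hTl : ∀ x ∈ R, ∀ x' ∈ R, dist (T x) (T x') ≤ dist x x' := by
    intro x _ x' _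
    simp only [hT]
    rw [dist_add_left, dist_eq_norm, ← sub_smul, norm_smul]
    have h2 := dist_le_pi_dist x x' (I 2)
    rw [Real.dist_eq] at h2
    rw [Real.norm_eq_abs]
    have h3 : |x (I 2) - x' (I 2)| * ‖q‖ ≤ |x (I 2) - x' (I 2)| * 1 :=
      mul_le_mul_of_nonneg_left hq (abs_nonneg _)
    linarith
  have hT1 : ∀ x ∈ R, ‖T x‖ ≤ 1 := by
    intro x hx
    have h2 := hRx x hx
    simp only [hT]
    refine (norm_add_le _ _).trans ?_
    rw [norm_smul_pos h2.1]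
    have : x (I 2) * ‖q‖ ≤ 1 * ‖q‖ := mul_le_mul_of_nonneg_right h2.2 (norm_nonneg _)
    linarith
  have hd1 : ∀ (σ : ℝ), |σ| = 1 → ∀ x x' : ι → ℝ,
      dist (b.1 + σ * (μ * (1 - x (I 2) / 2))) (b.1 + σ * (μ * (1 - x' (I 2) / 2))) ≤ dist x x' := by
    intro σ hσ x x'
    have h2 := dist_le_pi_dist x x' (I 2)
    rw [Real.dist_eq] at h2 ⊢
    have h3 : b.1 + σ * (μ * (1 - x (I 2) / 2)) - (b.1 + σ * (μ * (1 - x' (I 2) / 2))) =
      -(σ * (μ / 2 * (x (I 2) - x' (I 2)))) := by ring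
    rw [h3, abs_neg, abs_mul, hσ, one_mul, abs_mul, abs_of_pos (by positivity)]
    have h4 : μ / 2 * |x (I 2) - x' (I 2)| ≤ 1 * |x (I 2) - x' (I 2)| :=
      mul_le_mul_of_nonneg_right (by linarith) (abs_nonneg _)
    linarith
  have hd2 : ∀ (σ : ℝ), |σ| = 1 → ∀ x x' : ι → ℝ,
      dist (b.2 + σ * (μ * (1 - x (I 2) / 2))) (b.2 + σ * (μ * (1 - x' (I 2) / 2))) ≤ dist x x' := by
    intro σ hσ x x'
    have := hd1 σ hσ x x'
    rwa [dist_add_left] at this ⊢
  have hV1l : ∀ σ : ℝ, |σ| = 1 → ∀ x ∈ R, ∀ x' ∈ R, dist (V1 σ x) (V1 σ x') ≤ dist x x' := by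
    intro σ hσ x _ x' _
    refine max_le (hd1 σ hσ x x') ?_
    simp only [hV1]
    rw [dist_add_left]
    exact dist_le_pi_dist x x' (I 3)
  have hV2l : ∀ σ : ℝ, |σ| = 1 → ∀ x ∈ R, ∀ x' ∈ R, dist (V2 σ x) (V2 σ x') ≤ dist x x' := by
    intro σ hσ x _ x' _
    refine max_le ?_ (hd2 σ hσ x x')
    simp only [hV2]
    rw [dist_add_left]
    exact dist_le_pi_dist x x' (I 3)
  set Sf : Set (EuclideanSpace ℝ (ι ⊕ ι)) :=
    {z | ∃ x ∈ cube ι, ‖vv I x - b‖ ≤ μ ∧ z = J x (sh I (p + q) x)} with hSf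
  have hcover : S ⊆ Sf ∪ ((PP I (V1 1) T '' R ∪ PP I (V1 (-1)) T '' R) ∪
      (PP I (V2 1) T '' R ∪ PP I (V2 (-1)) T '' R)) := by
    intro z hz
    obtain ⟨x, hx, hx2, hzx⟩ := hS z hz
    set w : ℝ × ℝ := vv I x - b with hw
    have hvx : vv I x = b + w := by rw [hw]; abel
    have hnw : ‖(1 / μ) • w‖ = ‖w‖ / μ := by
      rw [norm_smul_pos (by positivity)]; ring
    rcases le_total (‖w‖) (μ / 2) with h3 | h3
    · left
      refine ⟨x, hx, hx2, ?_⟩
      rw [hzx, bump_one (by rw [hnw, div_le_iff₀ h0]; linarith), one_smul]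
    · right
      have h4 : bump ((1 / μ) • w) = 2 - 2 * (‖w‖ / μ) := by
        rw [bump_mid, hnw]
        · rw [hnw, le_div_iff₀ h0]; linarith
        · rw [hnw, div_le_iff₀ h0]; linarith
      set s : ℝ := 2 - 2 * (‖w‖ / μ) with hs
      have hs0 : 0 ≤ s := by
        have : ‖w‖ / μ ≤ 1 := by rw [div_le_iff₀ h0]; linarith
        linarith
      have hs1 : s ≤ 1 := by
        have : 1 / 2 ≤ ‖w‖ / μ := by rw [le_div_iff₀ h0]; linarith
        linarith
      have hws : ‖w‖ = μ * (1 - s / 2) := by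
        rw [hs]; field_simp; ring
      rw [h4] at hzx
      -- common verification
      have hfin : ∀ (V : (ι → ℝ) → ℝ × ℝ) (t : ℝ), -μ ≤ t → t ≤ μ →
          V (rp I (s, t) x) = vv I x → z ∈ PP I V T '' R := by
        intro V t ht1 ht2 hV
        refine ⟨rp I (s, t) x, mem_box I hI hx ⟨hs0, hs1⟩ ⟨ht1, ht2⟩, ?_⟩
        have e1 : T (rp I (s, t) x) = p + s • q := by
          have := congrArg Prod.fst (vv_rp hI (s, t) x)
          simp only [vv] at this
          simp only [hT]; rw [this]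
        unfold PP
        rw [hV, e1, rp_rp, sh_rp hI, rp_rp, ← sh_rp hI, rp_vv, hzx]
      have e2 : ∀ t, (rp I (s, t) x) (I 2) = s := fun t => congrArg Prod.fst (vv_rp hI (s, t) x)
      have e3 : ∀ t, (rp I (s, t) x) (I 3) = t := fun t => congrArg Prod.snd (vv_rp hI (s, t) x)
      have hmax : max |w.1| |w.2| = μ * (1 - s / 2) := by rw [← hws]; rfl
      have hw1 := (norm_fst_le w).trans hx2
      have hw2 := (norm_snd_le w).trans hx2
      rw [Real.norm_eq_abs, abs_le] at hw1 hw2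
      rcases abs_cases hmax with (h5 | h5) | (h5 | h5)
      · left; left
        refine hfin _ w.2 hw2.1 hw2.2 ?_
        simp only [hV1, e2, e3]
        rw [hvx, one_mul, ← h5]; rfl
      · left; right
        refine hfin _ w.2 hw2.1 hw2.2 ?_
        simp only [hV1, e2, e3]
        rw [hvx, neg_one_mul, ← h5]; rfl
      · right; left
        refine hfin _ w.1 hw1.1 hw1.2 ?_
        simp only [hV2, e2, e3]
        rw [hvx, one_mul, ← h5]; rfl
      · right; right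
        refine hfin _ w.1 hw1.1 hw1.2 ?_
        simp only [hV2, e2, e3]
        rw [hvx, neg_one_mul, ← h5]; rfl
  have hf : μH[(Fintype.card ι : ℝ)] Sf ≤ Kd ι * ENNReal.ofReal (4 * μ) :=
    flat_measure I hI (p := p + q) (b := b) (Θ := fun _ => 0) ((norm_add_le _ _).trans hpq) h0.le h1
      (fun z hz => hz)
  have hs1 : ∀ σ : ℝ, |σ| = 1 → μH[(Fintype.card ι : ℝ)] (PP I (V1 σ) T '' R) ≤
      Kd ι * ENNReal.ofReal (2 * μ) := fun σ hσ => by
    rw [← hvol]; exact PP_measure I (hV1l σ hσ) hTl hT1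
  have hs2 : ∀ σ : ℝ, |σ| = 1 → μH[(Fintype.card ι : ℝ)] (PP I (V2 σ) T '' R) ≤
      Kd ι * ENNReal.ofReal (2 * μ) := fun σ hσ => by
    rw [← hvol]; exact PP_measure I (hV2l σ hσ) hTl hT1
  have a1 : |(1 : ℝ)| = 1 := abs_one
  have a2 : |(-1 : ℝ)| = 1 := by simp
  refine (measure_mono hcover).trans ?_
  refine (measure_union_le _ _).trans ?_
  have h12 : ENNReal.ofReal (12 * μ) = ENNReal.ofReal (4 * μ) + ((ENNReal.ofReal (2 * μ) +
      ENNReal.ofReal (2 * μ)) + (ENNReal.ofReal (2 * μ) + ENNReal.ofReal (2 * μ))) := by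
    rw [← ENNReal.ofReal_add, ← ENNReal.ofReal_add, ← ENNReal.ofReal_add] <;> try positivity
    congr 1; ring
  rw [h12, mul_add, mul_add, mul_add]
  refine add_le_add hf ?_
  refine (measure_union_le _ _).trans (add_le_add ?_ ?_)
  · exact (measure_union_le _ _).trans (add_le_add (hs1 1 a1) (hs1 (-1) a2))
  · exact (measure_union_le _ _).trans (add_le_add (hs2 1 a1) (hs2 (-1) a2))

end Pool.Agent.J4.H82.Graph
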