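import Mathlib

/-!
# The graph of a homeomorphism of the cube
-/

set_option autoImplicit false

namespace Pool.Agent.J4.H82.Graph

/-- The cube `[0,1]^d` in Euclidean space. -/
def Cube (d : ℕ) : Set (EuclideanSpace ℝ (Fin d)) := {x | ∀ i, 0 ≤ x i ∧ x i ≤ 1}

/-- The graph `{(x, f(x))}` of a homeomorphism of the cube, a subset of the Euclidean space
`ℝ^d × ℝ^d = ℝ^{2d}`. -/
def graph {d : ℕ} (f : Cube d ≃ₜ Cube d) : Set (EuclideanSpace ℝ (Fin d ⊕ Fin d)) :=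
  {z | ∃ x : Cube d, (∀ i, z (Sum.inl i) = (x : EuclideanSpace ℝ (Fin d)) i) ∧
    ∀ i, z (Sum.inr i) = (f x : EuclideanSpace ℝ (Fin d)) i}

end Pool.Agent.J4.H82.Graph
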