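import Pool.Agent.J4.H82.Graph.Rec
import Pool.Agent.J4.H82.Graph.Defs

set_option autoImplicit false

open Set MeasureTheory Filter Topology
open scoped ENNReal NNReal

namespace Pool.Agent.J4.H82.Graph

lemma CubeE_eq (d : ℕ) : CubeE (Fin d) = Cube d := rfl

/-- The homeomorphism of `[0,1]^d`. -/
noncomputable def hom {d : ℕ} (I : Fin 4 → Fin d) (hI : Function.Injective I)
    (Θ : ℝ × ℝ → ℝ × ℝ) (hc : Continuous Θ) (hb : ∀ v, ‖Θ v‖ ≤ 1 / 8) : Cube d ≃ₜ Cube d :=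
  homeo I hI Θ hc hb

lemma graph_hom {d : ℕ} (I : Fin 4 → Fin d) (hI : Function.Injective I)
    (Θ : ℝ × ℝ → ℝ × ℝ) (hc : Continuous Θ) (hb : ∀ v, ‖Θ v‖ ≤ 1 / 8) :
    graph (hom I hI Θ hc hb) = gr I Θ := by
  ext z
  constructor
  · rintro ⟨x, h1, h2⟩
    refine ⟨(x : EuclideanSpace ℝ (Fin d)).ofLp, x.2, ?_⟩
    ext j
    rcases j with j | j
    · exact (h1 j).symm
    · exact (h2 j).symm
  · rintro ⟨x, hx, rfl⟩
    exact ⟨⟨WithLp.toLp 2 x, hx⟩, fun i => rfl, fun i => rfl⟩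

lemma dist_hom {d : ℕ} (I : Fin 4 → Fin d) (hI : Function.Injective I)
    {Θ Θ' : ℝ × ℝ → ℝ × ℝ} (hc : Continuous Θ) (hb : ∀ v, ‖Θ v‖ ≤ 1 / 8)
    (hc' : Continuous Θ') (hb' : ∀ v, ‖Θ' v‖ ≤ 1 / 8) (x : Cube d) {r : ℝ}
    (hr : ∀ v, dist (Θ v) (Θ' v) ≤ r) :
    dist (hom I hI Θ hc hb x) (hom I hI Θ' hc' hb' x) ≤
      ((Fintype.card (Fin d) : ℝ≥0) ^ (1 / 2 : ℝ≥0∞).toReal : ℝ≥0) * r := by
  have h := (PiLp.lipschitzWith_toLp 2 (fun _ : Fin d => ℝ)).dist_le_mul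
    (FF I Θ (x : EuclideanSpace ℝ (Fin d)).ofLp) (FF I Θ' (x : EuclideanSpace ℝ (Fin d)).ofLp)
  refine h.trans (mul_le_mul_of_nonneg_left ?_ (NNReal.coe_nonneg _))
  unfold FF
  have h1 := dist_sh I (p := Θ (vv I (x : EuclideanSpace ℝ (Fin d)).ofLp))
    (p' := Θ' (vv I (x : EuclideanSpace ℝ (Fin d)).ofLp))
    ((hb _).trans (by norm_num)) (x : EuclideanSpace ℝ (Fin d)).ofLp
    (x : EuclideanSpace ℝ (Fin d)).ofLp
  rw [dist_self, mul_zero, zero_add] at h1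
  exact h1.trans (hr _)

theorem main {d : ℕ} (hd : 4 ≤ d) :
    ∃ (c : ℝ) (f : Cube d ≃ₜ Cube d), ENNReal.ofReal c < μH[(d : ℝ)] (graph f) ∧
      ∀ ε : ℝ, 0 < ε → ∃ g : Cube d ≃ₜ Cube d, (∀ x, dist (f x) (g x) < ε) ∧
        μH[(d : ℝ)] (graph g) ≤ ENNReal.ofReal c := by
  set I : Fin 4 → Fin d := Fin.castLE hd with hIdef
  have hI : Function.Injective I := Fin.castLE_injective hd
  obtain ⟨δ, c, hδ, h1, h2⟩ := main_aux I hI
  rw [Fintype.card_fin] at h1 h2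
  refine ⟨c, hom I hI (Th Psi δ) (Th_cont Psi_cont δ) (Th_norm Psi_norm_le δ), ?_, ?_⟩
  · rw [graph_hom]; exact h1
  · intro ε hε
    set K0 : ℝ := (((Fintype.card (Fin d) : ℝ≥0) ^ (1 / 2 : ℝ≥0∞).toReal : ℝ≥0) : ℝ) with hK0
    have hK0' : 0 ≤ K0 := NNReal.coe_nonneg _
    have hev := (Metric.tendstoUniformly_iff.1 psi_tendsto) (ε / (K0 + 1)) (by positivity)
    obtain ⟨K, hK⟩ := hev.exists
    refine ⟨hom I hI (Th (psi K) δ) (Th_cont (psi_cont K) δ) (Th_norm (psi_norm_le K) δ), ?_, ?_⟩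
    · intro x
      have h3 := dist_hom I hI (Th_cont Psi_cont δ) (Th_norm Psi_norm_le δ) (Th_cont (psi_cont K) δ)
        (Th_norm (psi_norm_le K) δ) x (r := ε / (K0 + 1)) (fun v => by
          unfold Th
          rw [dist_eq_norm, ← smul_sub, norm_smul_pos (by norm_num), ← dist_eq_norm]
          have := (hK ((1 / δ) • (v - ctr))).le
          have h4 : (0 : ℝ) ≤ dist (Psi ((1 / δ) • (v - ctr))) (psi K ((1 / δ) • (v - ctr))) :=
            dist_nonneg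
          linarith)
      refine h3.trans_lt ?_
      rw [← hK0, ← mul_div_assoc, div_lt_iff₀ (by positivity)]
      nlinarith
    · rw [graph_hom]; exact h2 K

end Pool.Agent.J4.H82.Graph
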