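import Mathlib

/-!
# A continuous map of the plane with cheap tentacles

`psi K` are piecewise affine maps of the square `[-1,1]²` whose uniform limit `Psi` maps a totally
disconnected set of measure zero onto `[-1,1]²`.
-/

set_option autoImplicit false

open Set MeasureTheory Filter Topology

namespace Pool.Agent.J4.H82.Graph

/-- The four corners of the square. -/
def cor (i : Bool × Bool) : ℝ × ℝ := (if i.1 then 1 else -1, if i.2 then 1 else -1)

/-- The bump: `1` for `‖v‖ ≤ 1/2`, `0` for `‖v‖ ≥ 1`. -/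
noncomputable def bump (v : ℝ × ℝ) : ℝ := max 0 (min 1 (2 - 2 * ‖v‖))

lemma bump_cont : Continuous bump := by unfold bump; fun_prop

lemma bump_nonneg (v : ℝ × ℝ) : 0 ≤ bump v := le_max_left _ _

lemma bump_le_one (v : ℝ × ℝ) : bump v ≤ 1 := max_le zero_le_one (min_le_left _ _)

lemma bump_one {v : ℝ × ℝ} (h : ‖v‖ ≤ 1 / 2) : bump v = 1 := by
  unfold bump
  rw [min_eq_left (by linarith), max_eq_right zero_le_one]

lemma bump_zero {v : ℝ × ℝ} (h : 1 ≤ ‖v‖) : bump v = 0 := by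
  unfold bump
  rw [max_eq_left]
  exact (min_le_right _ _).trans (by linarith)

lemma bump_mid {v : ℝ × ℝ} (h1 : 1 / 2 ≤ ‖v‖) (h2 : ‖v‖ ≤ 1) : bump v = 2 - 2 * ‖v‖ := by
  unfold bump
  rw [min_eq_right (by linarith), max_eq_right (by linarith)]

/-- The approximations. -/
noncomputable def psi : ℕ → ℝ × ℝ → ℝ × ℝ
  | 0 => fun _ => 0
  | K + 1 => fun v => ∑ i : Bool × Bool, (1 / 2 : ℝ) • (bump ((4 : ℝ) • (v - (1 / 2 : ℝ) • cor i)) • cor i +
      psi K ((8 : ℝ) • (v - (1 / 2 : ℝ) • cor i)))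

lemma psi_cont (K : ℕ) : Continuous (psi K) := by
  induction K with
  | zero => exact continuous_const
  | succ K ih =>
    unfold psi
    have := bump_cont
    fun_prop

lemma norm_cor (i : Bool × Bool) : ‖cor i‖ = 1 := by
  rcases i with ⟨a, b⟩
  cases a <;> cases b <;> simp [cor, Prod.norm_def]

lemma norm_cor_sub {i j : Bool × Bool} (h : i ≠ j) : 2 ≤ ‖cor i - cor j‖ := by
  rcases i with ⟨a, b⟩
  rcases j with ⟨a', b'⟩
  cases a <;> cases b <;> cases a' <;> cases b' <;>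
    first
    | exact absurd rfl h
    | (simp only [cor, Prod.norm_def, Prod.mk_sub_mk, Real.norm_eq_abs]; norm_num)

/-- If `v` is close to the centre `cor i / 2` it is far from the others. -/
lemma far {v : ℝ × ℝ} {i j : Bool × Bool} (h : i ≠ j) (hi : ‖v - (1 / 2 : ℝ) • cor i‖ ≤ 1 / 4) :
    3 / 4 ≤ ‖v - (1 / 2 : ℝ) • cor j‖ := by
  have h1 := norm_cor_sub h
  have h2 : ‖(1 / 2 : ℝ) • cor i - (1 / 2 : ℝ) • cor j‖ = 1 / 2 * ‖cor i - cor j‖ := by
    rw [← smul_sub, norm_smul]; norm_num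
  have h3 : ‖(1 / 2 : ℝ) • cor i - (1 / 2 : ℝ) • cor j‖ ≤
      ‖v - (1 / 2 : ℝ) • cor i‖ + ‖v - (1 / 2 : ℝ) • cor j‖ := by
    have : (1 / 2 : ℝ) • cor i - (1 / 2 : ℝ) • cor j =
      -(v - (1 / 2 : ℝ) • cor i) + (v - (1 / 2 : ℝ) • cor j) := by abel
    rw [this]
    exact (norm_add_le _ _).trans (by rw [norm_neg])
  linarith

lemma norm_smul_pos {c : ℝ} (hc : 0 ≤ c) (v : ℝ × ℝ) : ‖c • v‖ = c * ‖v‖ := by
  rw [norm_smul, Real.norm_of_nonneg hc]

lemma psi_zero_of_one_lt (K : ℕ) {v : ℝ × ℝ} (h : 1 < ‖v‖) : psi K v = 0 := by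
  induction K generalizing v with
  | zero => rfl
  | succ K ih =>
    unfold psi
    apply Finset.sum_eq_zero
    intro i _
    have h1 : 1 / 2 < ‖v - (1 / 2 : ℝ) • cor i‖ := by
      have h2 : ‖v‖ ≤ ‖v - (1 / 2 : ℝ) • cor i‖ + ‖(1 / 2 : ℝ) • cor i‖ := by
        have := norm_add_le (v - (1 / 2 : ℝ) • cor i) ((1 / 2 : ℝ) • cor i)
        simpa using this
      rw [norm_smul_pos (by norm_num), norm_cor] at h2
      linarith
    rw [bump_zero (by rw [norm_smul_pos (by norm_num)]; linarith),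
      ih (by rw [norm_smul_pos (by norm_num)]; linarith)]
    simp

/-- Evaluation off the four squares. -/
lemma psi_succ_off (K : ℕ) {v : ℝ × ℝ} (h : ∀ i, 1 / 4 < ‖v - (1 / 2 : ℝ) • cor i‖) :
    psi (K + 1) v = 0 := by
  unfold psi
  apply Finset.sum_eq_zero
  intro i _
  have := h i
  rw [bump_zero (by rw [norm_smul_pos (by norm_num)]; linarith),
    psi_zero_of_one_lt K (by rw [norm_smul_pos (by norm_num)]; linarith)]
  simp

/-- Evaluation on one of the four squares. -/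
lemma psi_succ_on (K : ℕ) {v : ℝ × ℝ} {i : Bool × Bool} (h : ‖v - (1 / 2 : ℝ) • cor i‖ ≤ 1 / 4) :
    psi (K + 1) v = (1 / 2 : ℝ) • (bump ((4 : ℝ) • (v - (1 / 2 : ℝ) • cor i)) • cor i +
      psi K ((8 : ℝ) • (v - (1 / 2 : ℝ) • cor i))) := by
  rw [psi]
  apply Finset.sum_eq_single i
  · intro j _ hj
    have := far (Ne.symm hj) h
    rw [bump_zero (by rw [norm_smul_pos (by norm_num)]; linarith),
      psi_zero_of_one_lt K (by rw [norm_smul_pos (by norm_num)]; linarith)]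
    simp
  · intro h; exact absurd (Finset.mem_univ _) h

lemma psi_norm_le (K : ℕ) (v : ℝ × ℝ) : ‖psi K v‖ ≤ 1 := by
  induction K generalizing v with
  | zero => simp [psi]
  | succ K ih =>
    by_cases h : ∀ i, 1 / 4 < ‖v - (1 / 2 : ℝ) • cor i‖
    · rw [psi_succ_off K h]; simp
    · push Not at h
      obtain ⟨i, hi⟩ := h
      rw [psi_succ_on K hi, norm_smul_pos (by norm_num)]
      have h1 : ‖bump ((4 : ℝ) • (v - (1 / 2 : ℝ) • cor i)) • cor i‖ ≤ 1 := by
        rw [norm_smul_pos (bump_nonneg _), norm_cor, mul_one]; exact bump_le_one _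
      have h2 := norm_add_le (bump ((4 : ℝ) • (v - (1 / 2 : ℝ) • cor i)) • cor i)
        (psi K ((8 : ℝ) • (v - (1 / 2 : ℝ) • cor i)))
      have h3 := ih ((8 : ℝ) • (v - (1 / 2 : ℝ) • cor i))
      linarith

lemma psi_sub_le (K : ℕ) (v : ℝ × ℝ) : ‖psi (K + 1) v - psi K v‖ ≤ (1 / 2 : ℝ) ^ K := by
  induction K generalizing v with
  | zero =>
    have : psi 0 v = 0 := rfl
    rw [this, sub_zero]
    simpa using psi_norm_le 1 v
  | succ K ih =>
    by_cases h : ∀ i, 1 / 4 < ‖v - (1 / 2 : ℝ) • cor i‖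
    · rw [psi_succ_off K h, psi_succ_off (K + 1) h]; simp
    · push Not at h
      obtain ⟨i, hi⟩ := h
      rw [psi_succ_on K hi, psi_succ_on (K + 1) hi, ← smul_sub, norm_smul_pos (by norm_num)]
      have h3 := ih ((8 : ℝ) • (v - (1 / 2 : ℝ) • cor i))
      have h4 : bump ((4 : ℝ) • (v - (1 / 2 : ℝ) • cor i)) • cor i +
          psi (K + 1) ((8 : ℝ) • (v - (1 / 2 : ℝ) • cor i)) -
          (bump ((4 : ℝ) • (v - (1 / 2 : ℝ) • cor i)) • cor i +
          psi K ((8 : ℝ) • (v - (1 / 2 : ℝ) • cor i))) =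
          psi (K + 1) ((8 : ℝ) • (v - (1 / 2 : ℝ) • cor i)) -
          psi K ((8 : ℝ) • (v - (1 / 2 : ℝ) • cor i)) := by abel
      rw [h4, pow_succ]
      linarith

/-- The limit. -/
noncomputable def Psi (v : ℝ × ℝ) : ℝ × ℝ := ∑' K : ℕ, (psi (K + 1) v - psi K v)

lemma summable_half : Summable fun K : ℕ => (1 / 2 : ℝ) ^ K :=
  summable_geometric_of_lt_one (by norm_num) (by norm_num)

lemma Psi_cont : Continuous Psi :=
  continuous_tsum (fun K => (psi_cont (K + 1)).sub (psi_cont K)) summable_half psi_sub_le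

lemma psi_tendsto : TendstoUniformly (fun K v => psi K v) Psi atTop := by
  have h := tendstoUniformly_tsum_nat summable_half psi_sub_le
  have e : (fun (K : ℕ) (v : ℝ × ℝ) => ∑ n ∈ Finset.range K, (psi (n + 1) v - psi n v)) =
      fun K v => psi K v := by
    funext K v
    rw [Finset.sum_range_sub (fun K => psi K v) K]
    simp [psi]
  rw [e] at h
  exact h

lemma Psi_norm_le (v : ℝ × ℝ) : ‖Psi v‖ ≤ 1 := by
  have h := (psi_tendsto.tendsto_at v).norm
  exact le_of_tendsto h (Eventually.of_forall fun K => psi_norm_le K v)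

lemma Psi_zero_of_one_lt {v : ℝ × ℝ} (h : 1 < ‖v‖) : Psi v = 0 := by
  have h1 := psi_tendsto.tendsto_at v
  have h2 : (fun K => psi K v) = fun _ => 0 := funext fun K => psi_zero_of_one_lt K h
  rw [h2] at h1
  exact tendsto_nhds_unique h1 tendsto_const_nhds

lemma exists_cor {y : ℝ × ℝ} (hy : ‖y‖ ≤ 1) : ∃ i, ‖(2 : ℝ) • y - cor i‖ ≤ 1 := by
  obtain ⟨a, b⟩ := y
  rw [Prod.norm_def, max_le_iff, Real.norm_eq_abs, Real.norm_eq_abs, abs_le, abs_le] at hy
  refine ⟨(decide (0 ≤ a), decide (0 ≤ b)), ?_⟩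
  rw [Prod.norm_def, max_le_iff, Real.norm_eq_abs, Real.norm_eq_abs, abs_le, abs_le]
  simp only [cor, decide_eq_true_eq, Prod.smul_mk, Prod.mk_sub_mk, smul_eq_mul] at hy ⊢
  split_ifs <;> constructor <;> constructor <;> linarith

lemma psi_approx (K : ℕ) {y : ℝ × ℝ} (hy : ‖y‖ ≤ 1) :
    ∃ v, ‖v‖ ≤ 1 ∧ ‖psi K v - y‖ ≤ (1 / 2 : ℝ) ^ K := by
  induction K generalizing y with
  | zero => exact ⟨0, by simp, by simpa [psi] using hy⟩
  | succ K ih =>
    obtain ⟨i, hi⟩ := exists_cor hy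
    obtain ⟨w, hw, h⟩ := ih hi
    refine ⟨(1 / 2 : ℝ) • cor i + (1 / 8 : ℝ) • w, ?_, ?_⟩
    · refine (norm_add_le _ _).trans ?_
      rw [norm_smul_pos (by norm_num), norm_smul_pos (by norm_num), norm_cor]
      linarith
    · have h1 : (1 / 2 : ℝ) • cor i + (1 / 8 : ℝ) • w - (1 / 2 : ℝ) • cor i = (1 / 8 : ℝ) • w := by
        abel
      rw [psi_succ_on K (i := i) (by
        rw [h1, norm_smul_pos (by norm_num)]; linarith), h1]
      rw [smul_smul, smul_smul]
      rw [bump_one (by rw [norm_smul_pos (by norm_num)]; linarith)]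
      norm_num only
      rw [one_smul, one_smul]
      have h2 : (1 / 2 : ℝ) • (cor i + psi K w) - y =
          (1 / 2 : ℝ) • (psi K w - ((2 : ℝ) • y - cor i)) := by
        rw [smul_sub, smul_add, smul_sub, smul_smul]
        norm_num only
        rw [one_smul]
        abel
      rw [h2, norm_smul_pos (by norm_num), pow_succ]
      linarith

/-- `Psi` maps the square onto itself. -/
lemma Psi_surj {y : ℝ × ℝ} (hy : ‖y‖ ≤ 1) : ∃ v, ‖v‖ ≤ 1 ∧ Psi v = y := by
  have hK : IsCompact (Psi '' Metric.closedBall 0 1) := (isCompact_closedBall 0 1).image Psi_cont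
  have hy' : y ∈ closure (Psi '' Metric.closedBall 0 1) := by
    rw [Metric.mem_closure_iff]
    intro ε hε
    have h1 := (Metric.tendstoUniformly_iff.1 psi_tendsto) (ε / 2) (by positivity)
    have h2 : ∀ᶠ K : ℕ in atTop, (1 / 2 : ℝ) ^ K < ε / 2 :=
      (tendsto_pow_atTop_nhds_zero_of_lt_one (by norm_num) (by norm_num)).eventually
        (gt_mem_nhds (by positivity))
    obtain ⟨K, hK1, hK2⟩ := (h1.and h2).exists
    obtain ⟨v, hv, h3⟩ := psi_approx K hy
    refine ⟨Psi v, ⟨v, by simpa using hv, rfl⟩, ?_⟩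
    have h4 := hK1 v
    have h5 : dist (psi K v) y ≤ (1 / 2 : ℝ) ^ K := by rw [dist_eq_norm]; exact h3
    have h6 := dist_triangle (Psi v) (psi K v) y
    rw [dist_comm]
    linarith
  rw [hK.isClosed.closure_eq] at hy'
  obtain ⟨v, hv, h⟩ := hy'
  exact ⟨v, by simpa using hv, h⟩

end Pool.Agent.J4.H82.Graph
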