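import Pool.Agent.J4.H82.Graph.Cost

/-!
# The measure of the tentacles, and the lower bound for the limit
-/

set_option autoImplicit false

open Set MeasureTheory Filter Topology
open scoped ENNReal NNReal

namespace Pool.Agent.J4.H82.Graph

variable {ι : Type} [Fintype ι] [DecidableEq ι] (I : Fin 4 → ι)

lemma rec_measure (hI : Function.Injective I) (K : ℕ) :
    ∀ (p b : ℝ × ℝ) (lam μ : ℝ), 0 ≤ lam → ‖p‖ + lam ≤ 1 → 0 < μ → μ ≤ 1 →
      ∀ S : Set (EuclideanSpace ℝ (ι ⊕ ι)),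
      (∀ z ∈ S, ∃ x ∈ cube ι, ‖vv I x - b‖ ≤ μ ∧
        z = J x (sh I (p + lam • psi K ((1 / μ) • (vv I x - b))) x)) →
      μH[(Fintype.card ι : ℝ)] S ≤ Kd ι * ENNReal.ofReal (32 * μ) := by
  induction K with
  | zero =>
    intro p b lam μ hlam hp h0 h1 S hS
    refine (flat_measure I hI (p := p) (b := b) (Θ := fun _ => 0) (by linarith) h0.le h1
      (fun z hz => ?_)).trans ?_
    · obtain ⟨x, hx, hx2, hz2⟩ := hS z hz
      refine ⟨x, hx, hx2, ?_⟩
      rw [hz2]; simp [psi]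
    · exact mul_le_mul_right (ENNReal.ofReal_le_ofReal (by linarith)) _
  | succ K ih =>
    intro p b lam μ hlam hp h0 h1 S hS
    set bi : Bool × Bool → ℝ × ℝ := fun i => b + (μ / 2) • cor i with hbi
    set Sf : Set (EuclideanSpace ℝ (ι ⊕ ι)) :=
      {z | ∃ x ∈ cube ι, ‖vv I x - b‖ ≤ μ ∧ z = J x (sh I p x)} with hSf
    set Sc : Bool × Bool → Set (EuclideanSpace ℝ (ι ⊕ ι)) := fun i =>
      {z | ∃ x ∈ cube ι, ‖vv I x - bi i‖ ≤ μ / 4 ∧
        z = J x (sh I (p + bump ((1 / (μ / 4)) • (vv I x - bi i)) • ((lam / 2) • cor i)) x)} with hSc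
    set Sr : Bool × Bool → Set (EuclideanSpace ℝ (ι ⊕ ι)) := fun i =>
      {z | ∃ x ∈ cube ι, ‖vv I x - bi i‖ ≤ μ / 8 ∧
        z = J x (sh I ((p + (lam / 2) • cor i) +
          (lam / 2) • psi K ((1 / (μ / 8)) • (vv I x - bi i))) x)} with hSr
    have hcover : S ⊆ Sf ∪ ⋃ i, (Sc i ∪ Sr i) := by
      intro z hz
      obtain ⟨x, hx, hx2, hzx⟩ := hS z hz
      set w : ℝ × ℝ := (1 / μ) • (vv I x - b) with hw
      have hwi : ∀ i, w - (1 / 2 : ℝ) • cor i = (1 / μ) • (vv I x - bi i) := by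
        intro i
        rw [hw, hbi]
        simp only
        rw [← sub_sub, smul_sub (1 / μ) (vv I x - b), smul_smul]
        congr 2
        field_simp
      have hwn : ∀ i, ‖w - (1 / 2 : ℝ) • cor i‖ = ‖vv I x - bi i‖ / μ := by
        intro i
        rw [hwi, norm_smul_pos (by positivity)]; ring
      by_cases h : ∀ i, 1 / 4 < ‖w - (1 / 2 : ℝ) • cor i‖
      · left
        refine ⟨x, hx, hx2, ?_⟩
        rw [hzx, psi_succ_off K h, smul_zero, add_zero]
      · push Not at h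
        obtain ⟨i, hi⟩ := h
        right
        rw [mem_iUnion]
        refine ⟨i, ?_⟩
        have e4 : (4 : ℝ) • (w - (1 / 2 : ℝ) • cor i) = (1 / (μ / 4)) • (vv I x - bi i) := by
          rw [hwi, smul_smul]; congr 1; field_simp
        have e8 : (8 : ℝ) • (w - (1 / 2 : ℝ) • cor i) = (1 / (μ / 8)) • (vv I x - bi i) := by
          rw [hwi, smul_smul]; congr 1; field_simp
        rw [psi_succ_on K hi] at hzx
        rcases lt_or_ge (1 / 8) ‖w - (1 / 2 : ℝ) • cor i‖ with h3 | h3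
        · left
          refine ⟨x, hx, ?_, ?_⟩
          · rw [hwn, div_le_iff₀ h0] at hi; linarith
          · rw [hzx, psi_zero_of_one_lt K (by rw [norm_smul_pos (by norm_num)]; linarith), e4,
              add_zero, smul_smul, smul_smul, smul_smul]
            congr 4
            ring
        · right
          refine ⟨x, hx, ?_, ?_⟩
          · rw [hwn, div_le_iff₀ h0] at h3; linarith
          · rw [hzx, bump_one (by rw [norm_smul_pos (by norm_num)]; linarith), e8, one_smul,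
              smul_add, smul_add, smul_smul, smul_smul, ← add_assoc]
            have : lam * (1 / 2) = lam / 2 := by ring
            rw [this]
    have h2 : ‖p‖ ≤ 1 := by linarith
    have hf : μH[(Fintype.card ι : ℝ)] Sf ≤ Kd ι * ENNReal.ofReal (4 * μ) :=
      flat_measure I hI (p := p) (b := b) (Θ := fun _ => 0) h2 h0.le h1 (fun z hz => hz)
    have hcn : ∀ i, ‖(lam / 2) • cor i‖ = lam / 2 := fun i => by
      rw [norm_smul_pos (by positivity), norm_cor, mul_one]
    have hc : ∀ i, μH[(Fintype.card ι : ℝ)] (Sc i) ≤ Kd ι * ENNReal.ofReal (3 * μ) := by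
      intro i
      have := cone_measure I hI (p := p) (q := (lam / 2) • cor i) (b := bi i) (μ := μ / 4)
        (by rw [hcn]; linarith) (by linarith) (by linarith) (S := Sc i) (fun z hz => hz)
      refine this.trans (le_of_eq ?_)
      congr 2; ring
    have hr : ∀ i, μH[(Fintype.card ι : ℝ)] (Sr i) ≤ Kd ι * ENNReal.ofReal (4 * μ) := by
      intro i
      have := ih (p + (lam / 2) • cor i) (bi i) (lam / 2) (μ / 8) (by linarith)
        (by have := norm_add_le p ((lam / 2) • cor i); rw [hcn] at this; linarith)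
        (by linarith) (by linarith) (Sr i) (fun z hz => hz)
      refine this.trans (le_of_eq ?_)
      congr 2; ring
    refine (measure_mono hcover).trans ?_
    refine (measure_union_le _ _).trans ?_
    have hsum : μH[(Fintype.card ι : ℝ)] (⋃ i, (Sc i ∪ Sr i)) ≤
        4 * (Kd ι * ENNReal.ofReal (7 * μ)) := by
      refine (measure_iUnion_fintype_le _ _).trans ?_
      have : ∀ i ∈ (Finset.univ : Finset (Bool × Bool)), μH[(Fintype.card ι : ℝ)] (Sc i ∪ Sr i) ≤
          Kd ι * ENNReal.ofReal (7 * μ) := by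
        intro i _
        refine (measure_union_le _ _).trans ((add_le_add (hc i) (hr i)).trans (le_of_eq ?_))
        rw [← mul_add, ← ENNReal.ofReal_add (by positivity) (by positivity)]
        congr 2; ring
      refine (Finset.sum_le_sum this).trans (le_of_eq ?_)
      rw [Finset.sum_const, Finset.card_univ]
      simp
    refine (add_le_add hf hsum).trans (le_of_eq ?_)
    have h4 : (4 : ℝ≥0∞) = ENNReal.ofReal 4 := by simp
    rw [h4, mul_left_comm, ← ENNReal.ofReal_mul (by norm_num), ← mul_add,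
      ← ENNReal.ofReal_add (by positivity) (by positivity)]
    congr 2; ring

/-- The displacement with `Ψ` or `ψ_K`. -/
noncomputable def Th (P : ℝ × ℝ → ℝ × ℝ) (δ : ℝ) (v : ℝ × ℝ) : ℝ × ℝ :=
  (1 / 8 : ℝ) • P ((1 / δ) • (v - ctr))

lemma Th_cont {P : ℝ × ℝ → ℝ × ℝ} (hP : Continuous P) (δ : ℝ) : Continuous (Th P δ) := by
  unfold Th; fun_prop

lemma Th_norm {P : ℝ × ℝ → ℝ × ℝ} (hP : ∀ v, ‖P v‖ ≤ 1) (δ : ℝ) (v : ℝ × ℝ) :
    ‖Th P δ v‖ ≤ 1 / 8 := by
  unfold Th
  rw [norm_smul_pos (by norm_num)]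
  have := hP ((1 / δ) • (v - ctr))
  linarith

lemma Th_zero {P : ℝ × ℝ → ℝ × ℝ} (hP : ∀ v, 1 < ‖v‖ → P v = 0) {δ : ℝ} (hδ : 0 < δ) {v : ℝ × ℝ}
    (hv : δ < ‖v - ctr‖) : Th P δ v = 0 := by
  unfold Th
  rw [hP, smul_zero]
  rw [norm_smul_pos (by positivity), one_div, ← div_eq_inv_mul, lt_div_iff₀ hδ]
  linarith

omit [Fintype ι] in
lemma sh_zero (x : ι → ℝ) : sh I 0 x = x := by
  funext i
  unfold sh shv uu
  split_ifs with h1 h2
  · simp [h1]
  · simp [h2]
  · rfl

/-- The graph. -/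
def gr (Θ : ℝ × ℝ → ℝ × ℝ) : Set (EuclideanSpace ℝ (ι ⊕ ι)) :=
  (fun x => J x (FF I Θ x)) '' cube ι

/-- The open set off the tentacles. -/
def Off (δ : ℝ) : Set (EuclideanSpace ℝ (ι ⊕ ι)) :=
  {z | δ < ‖((z (Sum.inl (I 2)), z (Sum.inl (I 3))) : ℝ × ℝ) - ctr‖}

omit [DecidableEq ι] in
lemma Off_measurable (δ : ℝ) : MeasurableSet (Off I δ) := by
  apply IsOpen.measurableSet
  apply isOpen_lt continuous_const
  fun_prop

lemma gr_inter (hI : Function.Injective I) {P : ℝ × ℝ → ℝ × ℝ} (hP : ∀ v, 1 < ‖v‖ → P v = 0)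
    {δ : ℝ} (hδ : 0 < δ) : gr I (Th P δ) ∩ Off I δ =
      {z | ∃ x ∈ cube ι, δ < ‖vv I x - ctr‖ ∧ z = J x x} := by
  ext z
  constructor
  · rintro ⟨⟨x, hx, rfl⟩, hz⟩
    have hz' : δ < ‖vv I x - ctr‖ := hz
    refine ⟨x, hx, hz', ?_⟩
    simp only [FF]
    rw [Th_zero hP hδ hz', sh_zero]
  · rintro ⟨x, hx, hz', rfl⟩
    refine ⟨⟨x, hx, ?_⟩, hz'⟩
    simp only [FF]
    rw [Th_zero hP hδ hz', sh_zero]

lemma off_finite (hI : Function.Injective I) (δ : ℝ) :
    μH[(Fintype.card ι : ℝ)] ({z | ∃ x ∈ cube ι, δ < ‖vv I x - ctr‖ ∧ z = J x x} :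
      Set (EuclideanSpace ℝ (ι ⊕ ι))) ≠ ∞ := by
  have h := flat_measure I hI (p := 0) (b := ctr) (μ := 1) (Θ := fun _ => 0) (by simp) zero_le_one
    le_rfl (S := {z | ∃ x ∈ cube ι, δ < ‖vv I x - ctr‖ ∧ z = J x x}) (by
      rintro z ⟨x, hx, -, rfl⟩
      refine ⟨x, hx, ?_, by rw [sh_zero]⟩
      have h1 := hx (I 2)
      have h2 := hx (I 3)
      rw [Prod.norm_def, max_le_iff, Real.norm_eq_abs, Real.norm_eq_abs, abs_le, abs_le]
      simp only [vv, ctr, Prod.fst_sub, Prod.snd_sub]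
      constructor <;> constructor <;> linarith)
  exact ne_top_of_le_ne_top (ENNReal.mul_ne_top Kd_ne_top ENNReal.ofReal_ne_top) h

lemma gr_diff_le (hI : Function.Injective I) (K : ℕ) {δ : ℝ} (hδ : 0 < δ) (hδ1 : δ ≤ 1) :
    μH[(Fintype.card ι : ℝ)] (gr I (Th (psi K) δ) \ Off I δ) ≤ Kd ι * ENNReal.ofReal (32 * δ) := by
  refine rec_measure I hI K 0 ctr (1 / 8) δ (by norm_num) (by norm_num) hδ hδ1 _ ?_
  rintro z ⟨⟨x, hx, rfl⟩, hz⟩
  refine ⟨x, hx, ?_, ?_⟩
  · exact not_lt.1 hz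
  · simp only [FF, Th, zero_add]

/-- The target box of the projection. -/
noncomputable def tb : Set (ι → ℝ) :=
  Icc (fun i => if i = I 0 ∨ i = I 1 ∨ i = I 2 ∨ i = I 3 then 1 / 2 - 1 / 32 else 0)
    (fun i => if i = I 0 ∨ i = I 1 ∨ i = I 2 ∨ i = I 3 then 1 / 2 + 1 / 32 else 1)

lemma tb_volume_pos : 0 < volume (tb I) := by
  unfold tb
  rw [Real.volume_Icc_pi, pos_iff_ne_zero, Finset.prod_ne_zero_iff]
  intro i _
  rw [ne_eq, ENNReal.ofReal_eq_zero, not_le]
  split_ifs <;> norm_num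

lemma tb_volume_ne_top : volume (tb I) ≠ ∞ := by
  unfold tb
  rw [Real.volume_Icc_pi]
  exact ENNReal.prod_ne_top fun i _ => ENNReal.ofReal_ne_top

/-- The projection. -/
noncomputable def pj (z : EuclideanSpace ℝ (ι ⊕ ι)) : ι → ℝ := fun i =>
  if i = I 2 then z (Sum.inr (I 0)) else if i = I 3 then z (Sum.inr (I 1)) else z (Sum.inl i)

lemma pj_lip : LipschitzWith 1 (pj I) := by
  apply LipschitzWith.of_dist_le_mul
  intro z z'
  rw [NNReal.coe_one, one_mul, dist_pi_le_iff dist_nonneg]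
  have key : ∀ j : ι ⊕ ι, dist (z j) (z' j) ≤ dist z z' := fun j =>
    (dist_le_pi_dist z.ofLp z'.ofLp j).trans (by
      simpa using (PiLp.lipschitzWith_ofLp 2 (fun _ : ι ⊕ ι => ℝ)).dist_le_mul z z')
  intro i
  unfold pj
  split_ifs
  · exact key _
  · exact key _
  · exact key _

lemma tb_subset (hI : Function.Injective I) {δ : ℝ} (hδ : 0 < δ) (hδ1 : δ ≤ 1 / 2) :
    tb I ⊆ pj I '' (gr I (Th Psi δ) \ Off I δ) := by
  intro ξ hξ
  have hc : ∀ j : Fin 4, 1 / 2 - 1 / 32 ≤ ξ (I j) ∧ ξ (I j) ≤ 1 / 2 + 1 / 32 := by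
    intro j
    have h1 := hξ.1 (I j)
    have h2 := hξ.2 (I j)
    have h3 : I j = I 0 ∨ I j = I 1 ∨ I j = I 2 ∨ I j = I 3 := by
      fin_cases j
      · left; rfl
      · right; left; rfl
      · right; right; left; rfl
      · right; right; right; rfl
    simp only [h3, if_true] at h1 h2
    exact ⟨h1, h2⟩
  have hcube : ξ ∈ cube ι := by
    intro i
    have h1 := hξ.1 i
    have h2 := hξ.2 i
    simp only at h1 h2
    split_ifs at h1 h2 with h
    · constructor <;> linarith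
    · exact ⟨h1, h2⟩
  set u : ℝ × ℝ := uu I ξ with hu
  set w : ℝ × ℝ := vv I ξ with hw
  have hun : ‖u - ctr‖ ≤ 1 / 32 := by
    rw [Prod.norm_def, max_le_iff, Real.norm_eq_abs, Real.norm_eq_abs, abs_le, abs_le]
    simp only [hu, uu, ctr, Prod.fst_sub, Prod.snd_sub]
    have h0 := hc 0
    have h1 := hc 1
    constructor <;> constructor <;> linarith
  have hwn : ‖w - ctr‖ ≤ 1 / 32 := by
    rw [Prod.norm_def, max_le_iff, Real.norm_eq_abs, Real.norm_eq_abs, abs_le, abs_le]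
    simp only [hw, vv, ctr, Prod.fst_sub, Prod.snd_sub]
    have h0 := hc 2
    have h1 := hc 3
    constructor <;> constructor <;> linarith
  have hchi : 7 / 8 ≤ chi u := by
    unfold chi
    exact le_max_of_le_right (by linarith)
  have hwu : ‖w - u‖ ≤ 1 / 16 := by
    have : w - u = (w - ctr) - (u - ctr) := by abel
    rw [this]
    exact (norm_sub_le _ _).trans (by linarith)
  have hcpos : 0 < chi u / 8 := by linarith
  obtain ⟨v, hv, hPsi⟩ := Psi_surj (y := (1 / (chi u / 8)) • (w - u)) (by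
    rw [norm_smul_pos (by positivity), one_div, ← div_eq_inv_mul, div_le_one hcpos]
    linarith)
  set x : ι → ℝ := rp I (ctr + δ • v) ξ with hx
  have hvx : vv I x = ctr + δ • v := vv_rp hI _ _
  have hux : uu I x = u := uu_rp hI _ _
  have hdv : ‖δ • v‖ ≤ δ := by
    rw [norm_smul_pos hδ.le]; nlinarith [norm_nonneg v]
  refine ⟨J x (FF I (Th Psi δ) x), ⟨⟨x, ?_, rfl⟩, ?_⟩, ?_⟩
  · intro i
    have h1 := (norm_fst_le (δ • v)).trans hdv
    have h2 := (norm_snd_le (δ • v)).trans hdv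
    rw [Real.norm_eq_abs, abs_le] at h1 h2
    simp only [hx, rp]
    split_ifs
    · simp only [ctr, Prod.fst_add]; constructor <;> linarith [h1.1, h1.2]
    · simp only [ctr, Prod.snd_add]; constructor <;> linarith [h2.1, h2.2]
    · exact hcube i
  · have e : ‖vv I x - ctr‖ ≤ δ := by
      rw [hvx, add_sub_cancel_left]; exact hdv
    exact not_lt.2 e
  · have hTh : Th Psi δ (vv I x) = (1 / 8 : ℝ) • ((1 / (chi u / 8)) • (w - u)) := by
      unfold Th
      rw [hvx, add_sub_cancel_left, smul_smul, one_div_mul_cancel hδ.ne', one_smul, hPsi]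
    have hshv : shv (Th Psi δ (vv I x)) (uu I x) = w := by
      unfold shv
      rw [hTh, hux, smul_smul, smul_smul]
      have : chi u * (1 / 8 * (1 / (chi u / 8))) = 1 := by
        field_simp
      rw [mul_assoc, this, one_smul]; abel
    have h10 := ne_of_inj hI (show (1 : Fin 4) ≠ 0 by decide)
    funext i
    unfold pj
    split_ifs with h2 h3
    · rw [h2]
      change FF I (Th Psi δ) x (I 0) = ξ (I 2)
      simp only [FF, sh, if_true]
      rw [hshv]; rfl
    · rw [h3]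
      change FF I (Th Psi δ) x (I 1) = ξ (I 3)
      simp only [FF, sh, h10, if_true, if_false]
      rw [hshv]; rfl
    · change x i = ξ i
      simp only [hx, rp, h2, h3, if_false]

lemma gr_diff_ge (hI : Function.Injective I) {δ : ℝ} (hδ : 0 < δ) (hδ1 : δ ≤ 1 / 2) :
    volume (tb I) ≤ μH[(Fintype.card ι : ℝ)] (gr I (Th Psi δ) \ Off I δ) := by
  have h1 := (pj_lip I).hausdorffMeasure_image_le (d := (Fintype.card ι : ℝ)) (by positivity)
    (gr I (Th Psi δ) \ Off I δ)
  rw [ENNReal.coe_one, ENNReal.one_rpow, one_mul, hausdorffMeasure_pi_real] at h1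
  exact (measure_mono (tb_subset I hI hδ hδ1)).trans h1

/-- Main statement for a general index set. -/
theorem main_aux (hI : Function.Injective I) :
    ∃ (δ c : ℝ), 0 < δ ∧ ENNReal.ofReal c < μH[(Fintype.card ι : ℝ)] (gr I (Th Psi δ)) ∧
      ∀ K, μH[(Fintype.card ι : ℝ)] (gr I (Th (psi K) δ)) ≤ ENNReal.ofReal c := by
  set k : ℝ := (Kd ι).toReal with hk
  set c0 : ℝ := (volume (tb I)).toReal with hc0
  have hk0 : 0 ≤ k := ENNReal.toReal_nonneg
  have hc0pos : 0 < c0 := ENNReal.toReal_pos (tb_volume_pos I).ne' (tb_volume_ne_top I)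
  set δ : ℝ := min (1 / 2) (c0 / (64 * (k + 1))) with hδ
  have hδ0 : 0 < δ := lt_min (by norm_num) (by positivity)
  have hδ1 : δ ≤ 1 / 2 := min_le_left _ _
  have hδ2 : δ ≤ c0 / (64 * (k + 1)) := min_le_right _ _
  set S0 : Set (EuclideanSpace ℝ (ι ⊕ ι)) :=
    {z | ∃ x ∈ cube ι, δ < ‖vv I x - ctr‖ ∧ z = J x x} with hS0
  set m : ℝ := (μH[(Fintype.card ι : ℝ)] S0).toReal with hm
  have hS0f : μH[(Fintype.card ι : ℝ)] S0 = ENNReal.ofReal m :=
    (ENNReal.ofReal_toReal (off_finite I hI δ)).symm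
  have hm0 : 0 ≤ m := ENNReal.toReal_nonneg
  have hKd : Kd ι = ENNReal.ofReal k := (ENNReal.ofReal_toReal Kd_ne_top).symm
  have hlt : k * (32 * δ) < c0 := by
    rw [le_div_iff₀ (by positivity)] at hδ2
    nlinarith
  refine ⟨δ, m + k * (32 * δ), hδ0, ?_, ?_⟩
  · have h1 := measure_inter_add_sdiff (μ := μH[(Fintype.card ι : ℝ)]) (gr I (Th Psi δ))
      (Off_measurable I δ)
    rw [gr_inter I hI (fun v hv => Psi_zero_of_one_lt hv) hδ0, ← hS0, hS0f] at h1
    rw [← h1]
    have h2 := gr_diff_ge I hI hδ0 hδ1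
    rw [← ENNReal.ofReal_toReal (tb_volume_ne_top I)] at h2
    refine lt_of_lt_of_le ?_ (add_le_add_right h2 _)
    rw [← ENNReal.ofReal_add hm0 hc0pos.le]
    exact (ENNReal.ofReal_lt_ofReal_iff (by positivity)).2 (by linarith)
  · intro K
    have h1 := measure_inter_add_sdiff (μ := μH[(Fintype.card ι : ℝ)]) (gr I (Th (psi K) δ))
      (Off_measurable I δ)
    rw [gr_inter I hI (fun v hv => psi_zero_of_one_lt K hv) hδ0, ← hS0, hS0f] at h1
    rw [← h1]
    have h2 := gr_diff_le I hI K hδ0 (by linarith)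
    refine (add_le_add_right h2 _).trans (le_of_eq ?_)
    rw [hKd, ← ENNReal.ofReal_mul hk0, ← ENNReal.ofReal_add hm0 (by positivity)]

end Pool.Agent.J4.H82.Graph
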