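import Pool.Agent.J4.H82.Graph.Psi

/-!
# Shears of the cube
-/

set_option autoImplicit false

open Set MeasureTheory Filter Topology

namespace Pool.Agent.J4.H82.Graph

/-- The centre of the unit square. -/
noncomputable def ctr : ℝ × ℝ := (1 / 2, 1 / 2)

/-- The cutoff. -/
noncomputable def chi (u : ℝ × ℝ) : ℝ := max 0 (1 - 4 * ‖u - ctr‖)

lemma chi_cont : Continuous chi := by unfold chi; fun_prop

lemma chi_nonneg (u : ℝ × ℝ) : 0 ≤ chi u := le_max_left _ _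

lemma chi_le_one (u : ℝ × ℝ) : chi u ≤ 1 :=
  max_le zero_le_one (by have := norm_nonneg (u - ctr); linarith)

lemma chi_lip (u u' : ℝ × ℝ) : |chi u - chi u'| ≤ 4 * ‖u - u'‖ := by
  unfold chi
  rw [max_comm 0 _, max_comm 0 _]
  refine (abs_max_sub_max_le_abs (1 - 4 * ‖u - ctr‖) (1 - 4 * ‖u' - ctr‖) 0).trans ?_
  have h1 : |‖u - ctr‖ - ‖u' - ctr‖| ≤ ‖u - u'‖ := by
    have := abs_norm_sub_norm_le (u - ctr) (u' - ctr)
    rwa [sub_sub_sub_cancel_right] at this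
  have h2 : (1 - 4 * ‖u - ctr‖) - (1 - 4 * ‖u' - ctr‖) = -(4 * (‖u - ctr‖ - ‖u' - ctr‖)) := by ring
  rw [h2, abs_neg, abs_mul, abs_of_pos (by norm_num : (0 : ℝ) < 4)]
  linarith

/-- The unit square. -/
def sq : Set (ℝ × ℝ) := {u | (0 ≤ u.1 ∧ u.1 ≤ 1) ∧ 0 ≤ u.2 ∧ u.2 ≤ 1}

lemma mem_sq_of_norm {u : ℝ × ℝ} (h : ‖u - ctr‖ ≤ 1 / 2) : u ∈ sq := by
  obtain ⟨a, b⟩ := u
  rw [Prod.norm_def, max_le_iff, Real.norm_eq_abs, Real.norm_eq_abs, abs_le, abs_le] at h
  simp only [ctr, Prod.mk_sub_mk] at h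
  simp only [sq, mem_ofPred_eq]
  refine ⟨⟨?_, ?_⟩, ?_, ?_⟩ <;> linarith

lemma chi_pos_imp {u : ℝ × ℝ} (h : 0 < chi u) : ‖u - ctr‖ < 1 / 4 := by
  unfold chi at h
  rcases lt_max_iff.1 h with h | h
  · exact absurd h (lt_irrefl _)
  · linarith

/-- The plane shear. -/
noncomputable def shv (p u : ℝ × ℝ) : ℝ × ℝ := u + chi u • p

lemma shv_mem {p u : ℝ × ℝ} (hp : ‖p‖ ≤ 1 / 8) (hu : u ∈ sq) : shv p u ∈ sq := by
  rcases (chi_nonneg u).eq_or_lt with h | h
  · unfold shv; rw [← h, zero_smul, add_zero]; exact hu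
  · apply mem_sq_of_norm
    have h1 := chi_pos_imp h
    have h2 : shv p u - ctr = (u - ctr) + chi u • p := by unfold shv; abel
    rw [h2]
    refine (norm_add_le _ _).trans ?_
    rw [norm_smul_pos (chi_nonneg u)]
    have h3 : chi u * ‖p‖ ≤ 1 * (1 / 8) := mul_le_mul (chi_le_one u) hp (norm_nonneg _) zero_le_one
    linarith

lemma shv_inj {p u u' : ℝ × ℝ} (hp : ‖p‖ ≤ 1 / 8) (h : shv p u = shv p u') : u = u' := by
  unfold shv at h
  have h1 : u - u' = (chi u' - chi u) • p := by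
    rw [sub_smul, sub_eq_sub_iff_add_eq_add, h, add_comm]
  have h2 : ‖u - u'‖ ≤ 4 * ‖u - u'‖ * (1 / 8) := by
    conv_lhs => rw [h1, norm_smul, Real.norm_eq_abs, abs_sub_comm]
    exact mul_le_mul (chi_lip u u') hp (norm_nonneg _) (by positivity)
  have h3 : ‖u - u'‖ ≤ 0 := by linarith [norm_nonneg (u - u')]
  exact sub_eq_zero.1 (norm_le_zero_iff.1 h3)

lemma shv_surj {p w : ℝ × ℝ} (hp : ‖p‖ ≤ 1 / 8) (hw : w ∈ sq) : ∃ u ∈ sq, shv p u = w := by
  have hc : ContinuousOn (fun τ : ℝ => τ - chi (w - τ • p)) (Icc 0 1) := by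
    have := chi_cont
    fun_prop
  have h0 : (0 : ℝ) - chi (w - (0 : ℝ) • p) ≤ 0 := by have := chi_nonneg (w - (0 : ℝ) • p); linarith
  have h1 : 0 ≤ (1 : ℝ) - chi (w - (1 : ℝ) • p) := by have := chi_le_one (w - (1 : ℝ) • p); linarith
  obtain ⟨τ, hτ, h⟩ := intermediate_value_Icc (zero_le_one) hc (show (0 : ℝ) ∈ Icc _ _ from ⟨h0, h1⟩)
  simp only at h
  have hτ' : chi (w - τ • p) = τ := by linarith
  refine ⟨w - τ • p, ?_, ?_⟩
  · rcases hτ.1.eq_or_lt with h2 | h2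
    · rw [← h2, zero_smul, sub_zero]; exact hw
    · apply mem_sq_of_norm
      rw [← hτ'] at h2
      have := chi_pos_imp h2
      linarith
  · unfold shv; rw [hτ']; abel

variable {ι : Type} [Fintype ι] [DecidableEq ι] (I : Fin 4 → ι)

/-- The first two distinguished coordinates. -/
def uu (x : ι → ℝ) : ℝ × ℝ := (x (I 0), x (I 1))

/-- The last two distinguished coordinates. -/
def vv (x : ι → ℝ) : ℝ × ℝ := (x (I 2), x (I 3))

/-- Shear by the vector `p`. -/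
noncomputable def sh (p : ℝ × ℝ) (x : ι → ℝ) : ι → ℝ := fun i =>
  if i = I 0 then (shv p (uu I x)).1 else if i = I 1 then (shv p (uu I x)).2 else x i

/-- Replacing the last two distinguished coordinates. -/
def rp (w : ℝ × ℝ) (x : ι → ℝ) : ι → ℝ := fun i =>
  if i = I 2 then w.1 else if i = I 3 then w.2 else x i

/-- The map of the cube. -/
noncomputable def FF (Θ : ℝ × ℝ → ℝ × ℝ) (x : ι → ℝ) : ι → ℝ := sh I (Θ (vv I x)) x

omit [Fintype ι] in
variable {I} in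
lemma ne_of_inj (hI : Function.Injective I) {a b : Fin 4} (h : a ≠ b) : I a ≠ I b :=
  fun h' => h (hI h')

/-- The cube. -/
def cube (ι : Type) : Set (ι → ℝ) := {x | ∀ i, 0 ≤ x i ∧ x i ≤ 1}

section
variable {I}
variable (hI : Function.Injective I)
include hI

omit [Fintype ι] in
lemma uu_sh (p : ℝ × ℝ) (x : ι → ℝ) : uu I (sh I p x) = shv p (uu I x) := by
  have h := ne_of_inj hI (show (1 : Fin 4) ≠ 0 by decide)
  simp [uu, sh, h]

omit [Fintype ι] in
lemma vv_sh (p : ℝ × ℝ) (x : ι → ℝ) : vv I (sh I p x) = vv I x := by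
  have h1 := ne_of_inj hI (show (2 : Fin 4) ≠ 0 by decide)
  have h2 := ne_of_inj hI (show (2 : Fin 4) ≠ 1 by decide)
  have h3 := ne_of_inj hI (show (3 : Fin 4) ≠ 0 by decide)
  have h4 := ne_of_inj hI (show (3 : Fin 4) ≠ 1 by decide)
  simp [vv, sh, h1, h2, h3, h4]

omit [Fintype ι] in
lemma uu_rp (w : ℝ × ℝ) (x : ι → ℝ) : uu I (rp I w x) = uu I x := by
  have h1 := ne_of_inj hI (show (0 : Fin 4) ≠ 2 by decide)
  have h2 := ne_of_inj hI (show (1 : Fin 4) ≠ 2 by decide)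
  have h3 := ne_of_inj hI (show (0 : Fin 4) ≠ 3 by decide)
  have h4 := ne_of_inj hI (show (1 : Fin 4) ≠ 3 by decide)
  simp [uu, rp, h1, h2, h3, h4]

omit [Fintype ι] in
lemma vv_rp (w : ℝ × ℝ) (x : ι → ℝ) : vv I (rp I w x) = w := by
  have h1 := ne_of_inj hI (show (3 : Fin 4) ≠ 2 by decide)
  simp [vv, rp, h1]

omit [Fintype ι] hI in
lemma rp_vv (x : ι → ℝ) : rp I (vv I x) x = x := by
  funext i
  unfold rp vv
  split_ifs with h1 h2
  · rw [h1]
  · rw [h2]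
  · rfl

omit [Fintype ι] hI in
lemma rp_rp (w w' : ℝ × ℝ) (x : ι → ℝ) : rp I w (rp I w' x) = rp I w x := by
  funext i
  unfold rp
  split_ifs <;> rfl

omit [Fintype ι] in
lemma sh_rp (p w : ℝ × ℝ) (x : ι → ℝ) : sh I p (rp I w x) = rp I w (sh I p x) := by
  have h1 := ne_of_inj hI (show (0 : Fin 4) ≠ 2 by decide)
  have h2 := ne_of_inj hI (show (1 : Fin 4) ≠ 2 by decide)
  have h3 := ne_of_inj hI (show (0 : Fin 4) ≠ 3 by decide)
  have h4 := ne_of_inj hI (show (1 : Fin 4) ≠ 3 by decide)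
  funext i
  unfold sh
  rw [uu_rp hI]
  by_cases hi : i = I 0
  · subst hi; simp [rp, h1, h3]
  · by_cases hi' : i = I 1
    · subst hi'; simp [rp, h2, h4, hi]
    · simp [rp, hi, hi']

omit [Fintype ι] hI in
lemma uu_mem {x : ι → ℝ} (hx : x ∈ cube ι) : uu I x ∈ sq := ⟨hx _, hx _⟩

omit [Fintype ι] in
lemma FF_mem {Θ : ℝ × ℝ → ℝ × ℝ} (hb : ∀ v, ‖Θ v‖ ≤ 1 / 8) {x : ι → ℝ} (hx : x ∈ cube ι) :
    FF I Θ x ∈ cube ι := by
  intro i
  have h := shv_mem (hb (vv I x)) (uu_mem (I := I) hx)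
  unfold FF sh
  split_ifs
  · exact h.1
  · exact h.2
  · exact hx i

omit [Fintype ι] in
lemma FF_inj {Θ : ℝ × ℝ → ℝ × ℝ} (hb : ∀ v, ‖Θ v‖ ≤ 1 / 8) {x x' : ι → ℝ}
    (h : FF I Θ x = FF I Θ x') : x = x' := by
  have hv : vv I x = vv I x' := by
    have := congrArg (vv I) h
    unfold FF at this
    rwa [vv_sh hI, vv_sh hI] at this
  have hu : uu I x = uu I x' := by
    have := congrArg (uu I) h
    unfold FF at this
    rw [uu_sh hI, uu_sh hI, ← hv] at this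
    exact shv_inj (hb _) this
  funext i
  by_cases hi : i = I 0
  · rw [hi]; exact congrArg Prod.fst hu
  · by_cases hi' : i = I 1
    · rw [hi']; exact congrArg Prod.snd hu
    · have := congrFun h i
      simpa [FF, sh, hi, hi'] using this

omit [Fintype ι] in
lemma FF_surj {Θ : ℝ × ℝ → ℝ × ℝ} (hb : ∀ v, ‖Θ v‖ ≤ 1 / 8) {y : ι → ℝ} (hy : y ∈ cube ι) :
    ∃ x ∈ cube ι, FF I Θ x = y := by
  obtain ⟨u, hu, h⟩ := shv_surj (hb (vv I y)) (uu_mem (I := I) hy)
  have h10 := ne_of_inj hI (show (1 : Fin 4) ≠ 0 by decide)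
  have h20 := ne_of_inj hI (show (2 : Fin 4) ≠ 0 by decide)
  have h21 := ne_of_inj hI (show (2 : Fin 4) ≠ 1 by decide)
  have h30 := ne_of_inj hI (show (3 : Fin 4) ≠ 0 by decide)
  have h31 := ne_of_inj hI (show (3 : Fin 4) ≠ 1 by decide)
  set x : ι → ℝ := fun i => if i = I 0 then u.1 else if i = I 1 then u.2 else y i with hx
  have hux : uu I x = u := by simp [uu, hx, h10]
  have hvx : vv I x = vv I y := by simp [vv, hx, h20, h21, h30, h31]
  refine ⟨x, ?_, ?_⟩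
  · intro i
    simp only [hx]
    split_ifs
    · exact hu.1
    · exact hu.2
    · exact hy i
  · funext i
    unfold FF sh
    rw [hvx, hux, h]
    by_cases hi : i = I 0
    · rw [if_pos hi, hi]; rfl
    · rw [if_neg hi]
      by_cases hi' : i = I 1
      · rw [if_pos hi', hi']; rfl
      · rw [if_neg hi']; simp [hx, hi, hi']

end

omit [Fintype ι] in
lemma FF_cont {Θ : ℝ × ℝ → ℝ × ℝ} (hc : Continuous Θ) : Continuous (FF I Θ) := by
  apply continuous_pi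
  intro i
  unfold FF sh shv uu vv
  have := chi_cont
  split_ifs <;> fun_prop

/-- The cube in Euclidean space. -/
def CubeE (ι : Type) [Fintype ι] : Set (EuclideanSpace ℝ ι) := {x | ∀ i, 0 ≤ x i ∧ x i ≤ 1}

instance : CompactSpace (CubeE ι) := by
  rw [← isCompact_iff_compactSpace]
  have h : CubeE ι = (EuclideanSpace.equiv ι ℝ).toHomeomorph ⁻¹' (Icc 0 1) := by
    ext x
    simp only [CubeE, mem_ofPred_eq, mem_preimage, mem_Icc, Pi.le_def]
    exact forall_and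
  rw [h, Homeomorph.isCompact_preimage]
  exact isCompact_Icc

/-- The homeomorphism of the cube. -/
noncomputable def homeo (hI : Function.Injective I) (Θ : ℝ × ℝ → ℝ × ℝ) (hc : Continuous Θ)
    (hb : ∀ v, ‖Θ v‖ ≤ 1 / 8) : CubeE ι ≃ₜ CubeE ι :=
  Continuous.homeoOfEquivCompactToT2
    (f := Equiv.ofBijective
      (fun x : CubeE ι => (⟨WithLp.toLp 2 (FF I Θ (x : EuclideanSpace ℝ ι).ofLp),
        FF_mem hI hb x.2⟩ : CubeE ι))
      ⟨fun x x' h => by
        have h1 := congrArg (fun z : CubeE ι => (z : EuclideanSpace ℝ ι).ofLp) h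
        have h2 := FF_inj hI hb h1
        exact Subtype.ext ((WithLp.ofLp_injective 2) h2),
      fun y => by
        obtain ⟨x, hx, h⟩ := FF_surj hI hb y.2
        refine ⟨⟨WithLp.toLp 2 x, hx⟩, ?_⟩
        apply Subtype.ext
        apply WithLp.ofLp_injective 2
        exact h⟩)
    (by
      apply Continuous.subtype_mk
      exact (PiLp.continuous_toLp 2 _).comp ((FF_cont I hc).comp
        ((PiLp.continuous_ofLp 2 _).comp continuous_subtype_val)))

lemma homeo_apply (hI : Function.Injective I) (Θ : ℝ × ℝ → ℝ × ℝ) (hc : Continuous Θ)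
    (hb : ∀ v, ‖Θ v‖ ≤ 1 / 8) (x : CubeE ι) :
    ((homeo I hI Θ hc hb x : CubeE ι) : EuclideanSpace ℝ ι) =
      WithLp.toLp 2 (FF I Θ (x : EuclideanSpace ℝ ι).ofLp) := rfl

end Pool.Agent.J4.H82.Graph
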